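import Pool.Agent.Helper17.IA.StV

/-!
# Project IA, module CDF: cover down for graphs on `Fin N`
-/

set_option autoImplicit false

namespace Pool.Agent.Helper28.IA

open Finset Pool.Agent.Helper93.IA Pool.Agent.Helper17.IA

section
variable {N : ℕ} {S T : Finset (Fin N)}

/-- the edges inside `S × T` as edges of the subtypes -/
private def dn (S T : Finset (Fin N)) (X : Finset (Fin N × Fin N)) : Finset (↥S × ↥T) :=
  univ.filter fun e => ((e.1 : Fin N), (e.2 : Fin N)) ∈ X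

/-- a set as a set of the subtype -/
private def du (S U : Finset (Fin N)) : Finset ↥S := univ.filter fun x => (x : Fin N) ∈ U

private theorem mem_dn {X : Finset (Fin N × Fin N)} {e : ↥S × ↥T} :
    e ∈ dn S T X ↔ ((e.1 : Fin N), (e.2 : Fin N)) ∈ X := by
  simp [dn]

private theorem mem_dn' {X : Finset (Fin N × Fin N)} {a : ↥S} {b : ↥T} :
    (a, b) ∈ dn S T X ↔ ((a : Fin N), (b : Fin N)) ∈ X := by
  simp [dn]

private theorem mem_du {U : Finset (Fin N)} {x : ↥S} : x ∈ du S U ↔ (x : Fin N) ∈ U := by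
  simp [du]

private theorem du_self (S : Finset (Fin N)) : du S S = univ := by
  ext x
  simp [du]

private theorem du_card {U : Finset (Fin N)} (h : U ⊆ S) : (du S U).card = U.card := by
  rw [← card_map (Function.Embedding.subtype _)]
  congr 1
  ext x
  simp only [mem_map, Function.Embedding.coe_subtype]
  constructor
  · rintro ⟨y, hy, rfl⟩
    exact mem_du.1 hy
  · intro hx
    exact ⟨⟨x, h hx⟩, mem_du.2 hx, rfl⟩

private theorem dn_m1 (X : Finset (Fin N × Fin N)) {U : Finset (Fin N)} (h : U ⊆ T) (a : ↥S) :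
    m1 (dn S T X) (du T U) a = m1 X U (a : Fin N) := by
  unfold m1
  rw [← card_map (Function.Embedding.subtype _)]
  congr 1
  ext x
  simp only [mem_map, Function.Embedding.coe_subtype, mem_filter]
  constructor
  · rintro ⟨y, ⟨hy, hy2⟩, rfl⟩
    exact ⟨mem_du.1 hy, fun h3 => hy2 (mem_dn'.2 h3)⟩
  · rintro ⟨hx, hx2⟩
    exact ⟨⟨x, h hx⟩, ⟨mem_du.2 hx, fun h3 => hx2 (mem_dn'.1 h3)⟩, rfl⟩

private theorem dn_m2 (X : Finset (Fin N × Fin N)) {U : Finset (Fin N)} (h : U ⊆ S) (b : ↥T) :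
    m2 (dn S T X) (du S U) b = m2 X U (b : Fin N) := by
  unfold m2
  rw [← card_map (Function.Embedding.subtype _)]
  congr 1
  ext x
  simp only [mem_map, Function.Embedding.coe_subtype, mem_filter]
  constructor
  · rintro ⟨y, ⟨hy, hy2⟩, rfl⟩
    exact ⟨mem_du.1 hy, fun h3 => hy2 (mem_dn'.2 h3)⟩
  · rintro ⟨hx, hx2⟩
    exact ⟨⟨x, h hx⟩, ⟨mem_du.2 hx, fun h3 => hx2 (mem_dn'.1 h3)⟩, rfl⟩

private theorem dn_d1 {X : Finset (Fin N × Fin N)} (h : ∀ e ∈ X, e.1 ∈ S ∧ e.2 ∈ T) (a : ↥S) :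
    d1 (dn S T X) a = d1 X (a : Fin N) := by
  unfold d1
  refine card_bij (fun e _ => ((e.1 : Fin N), (e.2 : Fin N))) ?_ ?_ ?_
  · intro e he
    rw [mem_filter] at he ⊢
    exact ⟨mem_dn.1 he.1, by rw [he.2]⟩
  · intro e _ e' _ h1
    rw [Prod.mk.injEq] at h1
    exact Prod.ext (Subtype.ext h1.1) (Subtype.ext h1.2)
  · intro e he
    rw [mem_filter] at he
    obtain ⟨h1, h2⟩ := h e he.1
    refine ⟨(⟨e.1, h1⟩, ⟨e.2, h2⟩), ?_, rfl⟩
    rw [mem_filter]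
    exact ⟨mem_dn.2 he.1, Subtype.ext he.2⟩

private theorem dn_d2 {X : Finset (Fin N × Fin N)} (h : ∀ e ∈ X, e.1 ∈ S ∧ e.2 ∈ T) (b : ↥T) :
    d2 (dn S T X) b = d2 X (b : Fin N) := by
  unfold d2
  refine card_bij (fun e _ => ((e.1 : Fin N), (e.2 : Fin N))) ?_ ?_ ?_
  · intro e he
    rw [mem_filter] at he ⊢
    exact ⟨mem_dn.1 he.1, by rw [he.2]⟩
  · intro e _ e' _ h1
    rw [Prod.mk.injEq] at h1
    exact Prod.ext (Subtype.ext h1.1) (Subtype.ext h1.2)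
  · intro e he
    rw [mem_filter] at he
    obtain ⟨h1, h2⟩ := h e he.1
    refine ⟨(⟨e.1, h1⟩, ⟨e.2, h2⟩), ?_, rfl⟩
    rw [mem_filter]
    exact ⟨mem_dn.2 he.1, Subtype.ext he.2⟩

private theorem dn_sdiff (X Y : Finset (Fin N × Fin N)) :
    dn S T (X \ Y) = dn S T X \ dn S T Y := by
  ext e
  rw [mem_sdiff, mem_dn, mem_dn, mem_dn, mem_sdiff]

private theorem dn_mono {X Y : Finset (Fin N × Fin N)} (h : X ⊆ Y) : dn S T X ⊆ dn S T Y :=
  fun _ he => mem_dn.2 (h (mem_dn.1 he))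

private theorem dn_ins (X : Finset (Fin N × Fin N)) (U1 U2 : Finset (Fin N)) :
    ins (dn S T X) (du S U1) (du T U2) = dn S T (ins X U1 U2) := by
  ext e
  unfold ins
  rw [mem_filter, mem_dn, mem_dn, mem_filter, mem_du, mem_du]

private theorem dn_Sm {X : Finset (Fin N × Fin N)} {t : ℝ} (h : Sm X t)
    (hX : ∀ e ∈ X, e.1 ∈ S ∧ e.2 ∈ T) : Sm (dn S T X) t :=
  ⟨fun a => by rw [dn_d1 hX]; exact h.1 _, fun b => by rw [dn_d2 hX]; exact h.2 _⟩

private theorem up_Sm {X : Finset (Fin N × Fin N)} {t : ℝ} (ht : 0 ≤ t)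
    (hX : ∀ e ∈ X, e.1 ∈ S ∧ e.2 ∈ T) (h : Sm (dn S T X) t) : Sm X t := by
  refine ⟨fun a => ?_, fun b => ?_⟩
  · by_cases ha : a ∈ S
    · have := h.1 ⟨a, ha⟩
      rwa [dn_d1 hX] at this
    · have : d1 X a = 0 := by
        unfold d1
        rw [card_eq_zero, filter_eq_empty_iff]
        intro e he h1
        exact ha (h1 ▸ (hX e he).1)
      rw [this]
      simpa using ht
  · by_cases hb : b ∈ T
    · have := h.2 ⟨b, hb⟩
      rwa [dn_d2 hX] at this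
    · have : d2 X b = 0 := by
        unfold d2
        rw [card_eq_zero, filter_eq_empty_iff]
        intro e he h1
        exact hb (h1 ▸ (hX e he).2)
      rw [this]
      simpa using ht

private theorem dn_Bi {X : Finset (Fin N × Fin N)} {V1 V2 U1 U2 : Finset (Fin N)} {lo hi : ℝ}
    (h1 : U1 ⊆ S) (h2 : U2 ⊆ T) (h : Bi X V1 V2 U1 U2 lo hi) :
    Bi (dn S T X) (du S V1) (du T V2) (du S U1) (du T U2) lo hi := by
  refine ⟨fun a ha => ?_, fun b hb => ?_⟩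
  · rw [dn_m1 X h2 a]
    exact h.1 _ (mem_du.1 ha)
  · rw [dn_m2 X h1 b]
    exact h.2 _ (mem_du.1 hb)

private theorem up_sub {A Q : Finset (Fin N × Fin N)} {U1 U2 : Finset (Fin N)}
    (hA : ∀ e ∈ A, e.1 ∈ S ∧ e.2 ∈ T)
    (h : dn S T A \ dn S T Q ⊆ ins (dn S T A) (du S U1) (du T U2)) : A \ Q ⊆ ins A U1 U2 := by
  intro e he
  rw [mem_sdiff] at he
  obtain ⟨h1, h2⟩ := hA e he.1
  have h3 : ((⟨e.1, h1⟩, ⟨e.2, h2⟩) : ↥S × ↥T) ∈ dn S T A \ dn S T Q := by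
    rw [mem_sdiff, mem_dn, mem_dn]
    exact he
  have h4 := h h3
  rw [dn_ins] at h4
  exact mem_dn.1 h4

private theorem up_emp {Q : Finset (Fin N × Fin N)} {U1 U2 : Finset (Fin N)}
    (hQ : ∀ e ∈ Q, e.1 ∈ S ∧ e.2 ∈ T)
    (h : ins (dn S T Q) (du S U1) (du T U2) = ∅) : ins Q U1 U2 = ∅ := by
  rw [eq_empty_iff_forall_notMem]
  intro e he
  have he' := he
  unfold ins at he'
  rw [mem_filter] at he'
  obtain ⟨h1, h2⟩ := hQ e he'.1
  have h3 : ((⟨e.1, h1⟩, ⟨e.2, h2⟩) : ↥S × ↥T) ∈ ins (dn S T Q) (du S U1) (du T U2) := by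
    rw [dn_ins, mem_dn]
    exact he
  rw [h] at h3
  exact absurd h3 (notMem_empty _)

end

theorem hCDF : StCDF := by
  intro ξ g ε n0 hg hCD N n m κ A0 B0 C0 A B C S U W hκ0 hκ hn hm hS hU hUS hWU hW hA0 hB0 hC0 hA hB
    hC hN1 hN2 sA sB sC iA iB iC hbal
  have hA' : ∀ e ∈ A, e.1 ∈ S 0 ∧ e.2 ∈ S 1 := fun e he => hA0 e (hA he)
  have hB' : ∀ e ∈ B, e.1 ∈ S 1 ∧ e.2 ∈ S 2 := fun e he => hB0 e (hB he)
  have hC' : ∀ e ∈ C, e.1 ∈ S 2 ∧ e.2 ∈ S 0 := fun e he => hC0 e (hC he)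
  have hWS : ∀ j, W j ⊆ S j := fun j => (hWU j).trans (hUS j)
  have hLv : Lv κ ε g ξ n m (dn (S 0) (S 1) A0) (dn (S 0) (S 1) A) (dn (S 1) (S 2) B0)
      (dn (S 1) (S 2) B) (dn (S 2) (S 0) C0) (dn (S 2) (S 0) C) (du (S 0) (U 0)) (du (S 0) (W 0))
      (du (S 1) (U 1)) (du (S 1) (W 1)) (du (S 2) (U 2)) (du (S 2) (W 2)) := by
    refine
      { nα := by rw [Fintype.card_coe, hS]
        nβ := by rw [Fintype.card_coe, hS]
        nγ := by rw [Fintype.card_coe, hS]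
        hm := hm
        c1 := by rw [du_card (hUS 0), hU]
        c2 := by rw [du_card (hUS 1), hU]
        c3 := by rw [du_card (hUS 2), hU]
        w1 := fun x hx => mem_du.2 (hWU 0 (mem_du.1 hx))
        w2 := fun x hx => mem_du.2 (hWU 1 (mem_du.1 hx))
        w3 := fun x hx => mem_du.2 (hWU 2 (mem_du.1 hx))
        cw1 := by rw [du_card (hWS 0)]; exact hW 0
        cw2 := by rw [du_card (hWS 1)]; exact hW 1
        cw3 := by rw [du_card (hWS 2)]; exact hW 2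
        sA := dn_mono hA
        sB := dn_mono hB
        sC := dn_mono hC
        near := ?_
        nearU := ?_
        smA := ?_
        smB := ?_
        smC := ?_
        agA := ?_
        agB := ?_
        agC := ?_
        bal := ?_ }
    · rw [← du_self (S 0), ← du_self (S 1), ← du_self (S 2)]
      exact ⟨dn_Bi Subset.rfl Subset.rfl hN1.1, dn_Bi Subset.rfl Subset.rfl hN1.2.1,
        dn_Bi Subset.rfl Subset.rfl hN1.2.2⟩
    · rw [← du_self (S 0), ← du_self (S 1), ← du_self (S 2)]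
      exact ⟨dn_Bi (hUS 0) (hUS 1) hN2.1, dn_Bi (hUS 1) (hUS 2) hN2.2.1,
        dn_Bi (hUS 2) (hUS 0) hN2.2.2⟩
    · rw [← dn_sdiff]
      exact dn_Sm sA fun e he => hA0 e (mem_sdiff.1 he).1
    · rw [← dn_sdiff]
      exact dn_Sm sB fun e he => hB0 e (mem_sdiff.1 he).1
    · rw [← dn_sdiff]
      exact dn_Sm sC fun e he => hC0 e (mem_sdiff.1 he).1
    · rw [dn_ins, dn_ins, iA]
    · rw [dn_ins, dn_ins, iB]
    · rw [dn_ins, dn_ins, iC]
    · refine ⟨fun a => ?_, fun b => ?_, fun c => ?_⟩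
      · rw [dn_d1 hA', dn_d2 hC']
        exact hbal.1 _
      · rw [dn_d1 hB', dn_d2 hA']
        exact hbal.2.1 _
      · rw [dn_d1 hC', dn_d2 hB']
        exact hbal.2.2 _
  obtain ⟨P', hP, h1, h2, h3, h4, h5, h6, h7, h8, h9⟩ :=
    hCD _ _ _ κ n m _ _ _ _ _ _ _ _ _ _ _ _ hκ0 hκ hn hLv
  have hgm : 0 ≤ g * m := by positivity
  let F : ↥(S 0) × ↥(S 1) × ↥(S 2) → Fin N × Fin N × Fin N :=
    fun T => ((T.1 : Fin N), (T.2.1 : Fin N), (T.2.2 : Fin N))
  have hF : ∀ {T T'}, F T = F T' → T = T' := by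
    intro T T' h
    simp only [F, Prod.mk.injEq] at h
    exact Prod.ext (Subtype.ext h.1) (Prod.ext (Subtype.ext h.2.1) (Subtype.ext h.2.2))
  have qA : dn (S 0) (S 1) ((P'.image F).image eA) = P'.image eA := by
    ext e
    rw [mem_dn]
    simp only [mem_image]
    constructor
    · rintro ⟨_, ⟨T, hT, rfl⟩, h⟩
      refine ⟨T, hT, ?_⟩
      simp only [eA, F, Prod.mk.injEq] at h ⊢
      exact Prod.ext (Subtype.ext h.1) (Subtype.ext h.2)
    · rintro ⟨T, hT, rfl⟩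
      exact ⟨F T, ⟨T, hT, rfl⟩, rfl⟩
  have qB : dn (S 1) (S 2) ((P'.image F).image eB) = P'.image eB := by
    ext e
    rw [mem_dn]
    simp only [mem_image]
    constructor
    · rintro ⟨_, ⟨T, hT, rfl⟩, h⟩
      refine ⟨T, hT, ?_⟩
      simp only [eB, F, Prod.mk.injEq] at h ⊢
      exact Prod.ext (Subtype.ext h.1) (Subtype.ext h.2)
    · rintro ⟨T, hT, rfl⟩
      exact ⟨F T, ⟨T, hT, rfl⟩, rfl⟩
  have qC : dn (S 2) (S 0) ((P'.image F).image eC) = P'.image eC := by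
    ext e
    rw [mem_dn]
    simp only [mem_image]
    constructor
    · rintro ⟨_, ⟨T, hT, rfl⟩, h⟩
      refine ⟨T, hT, ?_⟩
      simp only [eC, F, Prod.mk.injEq] at h ⊢
      exact Prod.ext (Subtype.ext h.1) (Subtype.ext h.2)
    · rintro ⟨T, hT, rfl⟩
      exact ⟨F T, ⟨T, hT, rfl⟩, rfl⟩
  have uA : ∀ e ∈ (P'.image F).image eA, e.1 ∈ S 0 ∧ e.2 ∈ S 1 := by
    intro e he
    simp only [mem_image] at he
    obtain ⟨_, ⟨T, _, rfl⟩, rfl⟩ := he
    exact ⟨T.1.2, T.2.1.2⟩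
  have uB : ∀ e ∈ (P'.image F).image eB, e.1 ∈ S 1 ∧ e.2 ∈ S 2 := by
    intro e he
    simp only [mem_image] at he
    obtain ⟨_, ⟨T, _, rfl⟩, rfl⟩ := he
    exact ⟨T.2.1.2, T.2.2.2⟩
  have uC : ∀ e ∈ (P'.image F).image eC, e.1 ∈ S 2 ∧ e.2 ∈ S 0 := by
    intro e he
    simp only [mem_image] at he
    obtain ⟨_, ⟨T, _, rfl⟩, rfl⟩ := he
    exact ⟨T.2.2.2, T.1.2⟩
  rw [← qA] at h1 h4 h7
  rw [← qB] at h2 h5 h8
  rw [← qC] at h3 h6 h9
  refine ⟨P'.image F, ?_, up_sub hA' h1, up_sub hB' h2, up_sub hC' h3, up_emp uA h4, up_emp uB h5,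
    up_emp uC h6, ?_, ?_, ?_⟩
  · refine
      { sA := ?_
        sB := ?_
        sC := ?_
        iA := ?_
        iB := ?_
        iC := ?_ }
    · intro T hT
      obtain ⟨T', hT', rfl⟩ := mem_image.1 hT
      exact mem_dn.1 (hP.sA T' hT')
    · intro T hT
      obtain ⟨T', hT', rfl⟩ := mem_image.1 hT
      exact mem_dn.1 (hP.sB T' hT')
    · intro T hT
      obtain ⟨T', hT', rfl⟩ := mem_image.1 hT
      exact mem_dn.1 (hP.sC T' hT')
    · intro T hT T1 hT1 h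
      obtain ⟨T', hT', rfl⟩ := mem_image.1 hT
      obtain ⟨T1', hT1', rfl⟩ := mem_image.1 hT1
      congr 1
      refine hP.iA T' hT' T1' hT1' ?_
      simp only [eA, F, Prod.mk.injEq] at h ⊢
      exact ⟨Subtype.ext h.1, Subtype.ext h.2⟩
    · intro T hT T1 hT1 h
      obtain ⟨T', hT', rfl⟩ := mem_image.1 hT
      obtain ⟨T1', hT1', rfl⟩ := mem_image.1 hT1
      congr 1
      refine hP.iB T' hT' T1' hT1' ?_
      simp only [eB, F, Prod.mk.injEq] at h ⊢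
      exact ⟨Subtype.ext h.1, Subtype.ext h.2⟩
    · intro T hT T1 hT1 h
      obtain ⟨T', hT', rfl⟩ := mem_image.1 hT
      obtain ⟨T1', hT1', rfl⟩ := mem_image.1 hT1
      congr 1
      refine hP.iC T' hT' T1' hT1' ?_
      simp only [eC, F, Prod.mk.injEq] at h ⊢
      exact ⟨Subtype.ext h.1, Subtype.ext h.2⟩
  · rw [dn_ins] at h7
    exact up_Sm hgm (fun e he => uA e (mem_filter.1 he).1) h7
  · rw [dn_ins] at h8
    exact up_Sm hgm (fun e he => uB e (mem_filter.1 he).1) h8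
  · rw [dn_ins] at h9
    exact up_Sm hgm (fun e he => uC e (mem_filter.1 he).1) h9

end Pool.Agent.Helper28.IA
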